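import Mathlib

/-!
# Every finitely generated commutative ring has a d-Sigma_2 Scott sentence

We define the infinitary formulas of L_{omega_1 omega} (countable conjunctions and disjunctions,
finite quantifier strings), the classes Sigma_a, Pi_a and d-Sigma_a, Scott sentences, and prove
that every finitely generated commutative ring (in particular every finitely generated integral
domain) has a d-Sigma_2 Scott sentence.
-/

namespace Pool.Agent.Results.MP_93e0ce_lc.DSigmaTwoScott

open FirstOrder FirstOrder.Language

/-- Infinitary formulas of `L_{ω₁ω}` over the language `L`, with free variables indexed by the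
type `α`: finitary quantifier-free formulas, negation, countable disjunctions and conjunctions
(indexed by any countable type), and quantification over a finite block `β` of variables. -/
inductive Inf (L : FirstOrder.Language.{0, 0}) : Type → Type 1
  | qf {α : Type} (φ : L.Formula α) (h : φ.IsQF) : Inf L α
  | neg {α : Type} (φ : Inf L α) : Inf L α
  | disj {α : Type} (ι : Type) (hι : Countable ι) (φ : ι → Inf L α) : Inf L α
  | conj {α : Type} (ι : Type) (hι : Countable ι) (φ : ι → Inf L α) : Inf L α
  | ex {α : Type} (β : Type) (hβ : Finite β) (φ : Inf L (α ⊕ β)) : Inf L α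
  | all {α : Type} (β : Type) (hβ : Finite β) (φ : Inf L (α ⊕ β)) : Inf L α

/-- Satisfaction of an infinitary formula in a structure under an assignment. -/
def Inf.Realize {L : FirstOrder.Language.{0, 0}} {M : Type} [L.Structure M] :
    {α : Type} → Inf L α → (α → M) → Prop
  | _, .qf φ _, v => φ.Realize v
  | _, .neg φ, v => ¬ φ.Realize v
  | _, .disj _ _ φ, v => ∃ i, (φ i).Realize v
  | _, .conj _ _ φ, v => ∀ i, (φ i).Realize v
  | _, .ex β _ φ, v => ∃ w : β → M, φ.Realize (Sum.elim v w)
  | _, .all β _ φ, v => ∀ w : β → M, φ.Realize (Sum.elim v w)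

/-- The complexity classes: `Cls true a φ` says that `φ` is a `Σ_a` formula, and
`Cls false a φ` says that `φ` is a `Π_a` formula.  Finitary quantifier-free formulas are `Σ_0`
and `Π_0`; for `a > 0`, a `Σ_a` formula is a countable disjunction of formulas `∃ x̄ φ` with `φ` in `Π_b` for
some `b < a`; a `Π_a` formula is a countable conjunction of formulas `∀ x̄ φ` with `φ` in `Σ_b`
for some `b < a`. -/
inductive Cls {L : FirstOrder.Language.{0, 0}} : Bool → Ordinal.{0} → {α : Type} → Inf L α → Prop
  | qf (s : Bool) {α : Type} (φ : L.Formula α) (h : φ.IsQF) : Cls s 0 (Inf.qf φ h)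
  | sigma (a : Ordinal.{0}) (ha : 0 < a) {α : Type} (ι : Type) (hι : Countable ι) (β : ι → Type)
      (hβ : ∀ i, Finite (β i)) (φ : (i : ι) → Inf L (α ⊕ β i)) (b : ι → Ordinal.{0})
      (hb : ∀ i, b i < a) (h : ∀ i, Cls false (b i) (φ i)) :
      Cls true a (Inf.disj ι hι fun i => Inf.ex (β i) (hβ i) (φ i))
  | pi (a : Ordinal.{0}) (ha : 0 < a) {α : Type} (ι : Type) (hι : Countable ι) (β : ι → Type)
      (hβ : ∀ i, Finite (β i)) (φ : (i : ι) → Inf L (α ⊕ β i)) (b : ι → Ordinal.{0})
      (hb : ∀ i, b i < a) (h : ∀ i, Cls true (b i) (φ i)) :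
      Cls false a (Inf.conj ι hι fun i => Inf.all (β i) (hβ i) (φ i))

/-- The conjunction of two infinitary formulas. -/
def Inf.and {L : FirstOrder.Language.{0, 0}} {α : Type} (φ ψ : Inf L α) : Inf L α :=
  Inf.conj Bool inferInstance fun i => bif i then φ else ψ

/-- A formula is `d-Σ_a` if it is the conjunction of a `Σ_a` formula and a `Π_a` formula. -/
def IsDSigma {L : FirstOrder.Language.{0, 0}} (a : Ordinal.{0}) {α : Type} (φ : Inf L α) : Prop :=
  ∃ σ π : Inf L α, Cls true a σ ∧ Cls false a π ∧ φ = σ.and π

/-- The infinitary sentence `φ` is a Scott sentence of the structure `A`: its countable models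
are exactly the structures isomorphic to `A`. -/
def IsScott {L : FirstOrder.Language.{0, 0}} (φ : Inf L Empty) (A : Type) [L.Structure A] : Prop :=
  ∀ (M : Type) [L.Structure M] [Countable M],
    φ.Realize (fun e : Empty => (e.elim : M)) ↔ Nonempty (M ≃[L] A)

section General

variable {L : FirstOrder.Language.{0, 0}} {A M : Type} [L.Structure A] [L.Structure M]

/-- Satisfaction is invariant under isomorphism. -/
theorem realize_equiv (e : M ≃[L] A) : ∀ {α : Type} (φ : Inf L α) (v : α → M),
    φ.Realize (e ∘ v) ↔ φ.Realize v
  | _, .qf φ _, v => by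
      simp only [Inf.Realize]
      exact StrongHomClass.realize_formula e φ
  | _, .neg φ, v => by
      simp only [Inf.Realize]
      exact not_congr (realize_equiv e φ v)
  | _, .disj _ _ φ, v => by
      simp only [Inf.Realize]
      exact exists_congr fun i => realize_equiv e (φ i) v
  | _, .conj _ _ φ, v => by
      simp only [Inf.Realize]
      exact forall_congr' fun i => realize_equiv e (φ i) v
  | _, .ex β _ φ, v => by
      simp only [Inf.Realize]
      constructor
      · rintro ⟨w, hw⟩
        refine ⟨e.symm ∘ w, (realize_equiv e φ _).1 ?_⟩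
        have : (e ∘ Sum.elim v (e.symm ∘ w)) = Sum.elim (e ∘ v) w := by
          funext x
          rcases x with x | x <;> simp
        rwa [this]
      · rintro ⟨w, hw⟩
        refine ⟨e ∘ w, ?_⟩
        have : (e ∘ Sum.elim v w) = Sum.elim (e ∘ v) (e ∘ w) := by
          funext x
          rcases x with x | x <;> simp
        rw [← this]
        exact (realize_equiv e φ _).2 hw
  | _, .all β _ φ, v => by
      simp only [Inf.Realize]
      constructor
      · intro h w
        have h' := h (e ∘ w)
        have : (e ∘ Sum.elim v w) = Sum.elim (e ∘ v) (e ∘ w) := by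
          funext x
          rcases x with x | x <;> simp
        rw [← this] at h'
        exact (realize_equiv e φ _).1 h'
      · intro h w
        have h' := (realize_equiv e φ _).2 (h (e.symm ∘ w))
        have : (e ∘ Sum.elim v (e.symm ∘ w)) = Sum.elim (e ∘ v) w := by
          funext x
          rcases x with x | x <;> simp
        rwa [this] at h'

/-- Two structures generated by tuples with the same quantifier-free type are isomorphic. -/
theorem exists_equiv {n : ℕ} (a : Fin n → A) (b : Fin n → M)
    (ha : ∀ y : A, ∃ t : L.Term (Fin n), t.realize a = y)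
    (hb : ∀ y : M, ∃ t : L.Term (Fin n), t.realize b = y)
    (h : ∀ ψ : L.Formula (Fin n), ψ.IsQF → (ψ.Realize a ↔ ψ.Realize b)) :
    Nonempty (M ≃[L] A) := by
  classical
  choose T hT using hb
  have heq : ∀ s t : L.Term (Fin n), s.realize a = t.realize a ↔ s.realize b = t.realize b := by
    intro s t
    have := h (s.equal t) (BoundedFormula.IsAtomic.equal _ _).isQF
    simpa [Formula.realize_equal] using this
  have key : ∀ t : L.Term (Fin n), (T (t.realize b)).realize a = t.realize a := by
    intro t
    rw [heq, hT]
  refine ⟨⟨Equiv.ofBijective (fun y => (T y).realize a) ⟨?_, ?_⟩, ?_, ?_⟩⟩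
  · intro x y hxy
    have := (heq _ _).1 hxy
    rwa [hT, hT] at this
  · intro y
    obtain ⟨t, rfl⟩ := ha y
    exact ⟨t.realize b, key t⟩
  · intro k f x
    have h1 : Structure.funMap f x = (Term.func f fun i => T (x i)).realize b := by
      simp [Term.realize, hT]
    change (T (Structure.funMap f x)).realize a = Structure.funMap f fun i => (T (x i)).realize a
    rw [h1, key]
    rfl
  · intro k r x
    have := h (r.formula fun i => T (x i)) (BoundedFormula.IsAtomic.rel _ _).isQF
    rw [Formula.realize_rel, Formula.realize_rel] at this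
    simp only [hT] at this
    exact this

/-- The countable set of universal facts about the tuple `a`. -/
def Idx (L : FirstOrder.Language.{0, 0}) {A : Type} [L.Structure A] {n : ℕ} (a : Fin n → A) : Type :=
  Σ m : ℕ, {ψ : L.Formula (Fin n ⊕ Fin m) // ψ.IsQF ∧ ∀ z, ψ.Realize (Sum.elim a z)}

instance [Countable L.Symbols] {n : ℕ} (a : Fin n → A) : Countable (Idx L a) := by
  unfold Idx
  infer_instance

theorem isQF_relabel {α β : Type} {φ : L.Formula α} (h : φ.IsQF) (g : α → β) :
    (φ.relabel g).IsQF :=
  BoundedFormula.IsQF.relabel (m := 0) (n := 0) h (Sum.inl ∘ g)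

/-- If every tuple satisfying the universal type of the generating tuple `a` generates `A`, then
`A` has a d-`Σ₂` Scott sentence. -/
theorem exists_scott [Countable L.Symbols] {n : ℕ} (a : Fin n → A)
    (ha : ∀ y : A, ∃ t : L.Term (Fin n), t.realize a = y)
    (H : ∀ b : Fin n → A,
      (∀ (m : ℕ) (ψ : L.Formula (Fin n ⊕ Fin m)), ψ.IsQF →
        (∀ z, ψ.Realize (Sum.elim a z)) → ∀ z, ψ.Realize (Sum.elim b z)) →
      ∀ y : A, ∃ t : L.Term (Fin n), t.realize b = y) :
    ∃ φ : Inf L Empty, IsDSigma 2 φ ∧ IsScott φ A := by
  classical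
  let g1 : (m : ℕ) → Fin n ⊕ Fin m → (Empty ⊕ Fin n) ⊕ Fin m := fun m =>
    Sum.map Sum.inr id
  let g2 : (m : ℕ) → Fin n ⊕ Fin m → (Empty ⊕ (Fin n ⊕ Unit)) ⊕ Fin m := fun m =>
    Sum.map (fun i => Sum.inr (Sum.inl i)) id
  let g3 : Fin n → (Empty ⊕ (Fin n ⊕ Unit)) ⊕ Fin 0 := fun i => Sum.inl (Sum.inr (Sum.inl i))
  let y3 : (Empty ⊕ (Fin n ⊕ Unit)) ⊕ Fin 0 := Sum.inl (Sum.inr (Sum.inr ()))
  -- the Σ₂ part
  let σ : Inf L Empty :=
    Inf.disj Unit inferInstance fun _ => Inf.ex (Fin n) inferInstance
      (Inf.conj (Idx L a) inferInstance fun p => Inf.all (Fin p.1) inferInstance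
        (Inf.qf (p.2.1.relabel (g1 p.1)) (isQF_relabel p.2.2.1 _)))
  -- the Π₂ part
  let bl : Idx L a ⊕ L.Term (Fin n) → Type := fun j =>
    Fin (Sum.elim (fun p : Idx L a => p.1) (fun _ => 0) j)
  let fm : (j : Idx L a ⊕ L.Term (Fin n)) → Inf L ((Empty ⊕ (Fin n ⊕ Unit)) ⊕ bl j) := fun j =>
    match j with
    | Sum.inl p => Inf.qf (∼(p.2.1.relabel (g2 p.1))) (isQF_relabel p.2.2.1 _).not
    | Sum.inr t => Inf.qf ((Term.var y3).equal (t.relabel g3))
        (BoundedFormula.IsAtomic.equal _ _).isQF
  let π : Inf L Empty :=
    Inf.conj Unit inferInstance fun _ => Inf.all (Fin n ⊕ Unit) inferInstance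
      (Inf.disj (Idx L a ⊕ L.Term (Fin n)) inferInstance fun j =>
        Inf.ex (bl j) (inferInstanceAs (Finite (Fin _))) (fm j))
  refine ⟨σ.and π, ⟨σ, π, ?_, ?_, rfl⟩, ?_⟩
  · refine Cls.sigma 2 zero_lt_two Unit _ (fun _ => Fin n) (fun _ => inferInstance) _ (fun _ => 1)
      (fun _ => one_lt_two) (fun _ => ?_)
    exact Cls.pi 1 zero_lt_one (Idx L a) _ (fun p => Fin p.1) (fun _ => inferInstance) _ (fun _ => 0)
      (fun _ => zero_lt_one) (fun p => Cls.qf _ _ _)
  · refine Cls.pi 2 zero_lt_two Unit _ (fun _ => Fin n ⊕ Unit) (fun _ => inferInstance) _ (fun _ => 1)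
      (fun _ => one_lt_two) (fun _ => ?_)
    refine Cls.sigma 1 zero_lt_one _ _ bl (fun _ => inferInstanceAs (Finite (Fin _))) _ (fun _ => 0)
      (fun _ => zero_lt_one) (fun p => ?_)
    rcases p with p | p
    · exact Cls.qf _ _ _
    · exact Cls.qf _ _ _
  · -- semantic description of the two parts
    have hσ : ∀ (M : Type) [L.Structure M], σ.Realize (fun e : Empty => (e.elim : M)) ↔
        ∃ b : Fin n → M, ∀ p : Idx L a, ∀ z, p.2.1.Realize (Sum.elim b z) := by
      intro M _
      simp only [σ, Inf.Realize, Formula.realize_relabel]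
      constructor
      · rintro ⟨_, b, hb⟩
        refine ⟨b, fun p z => ?_⟩
        have := hb p z
        convert this using 1
        funext x
        rcases x with x | x <;> rfl
      · rintro ⟨b, hb⟩
        refine ⟨(), b, fun p z => ?_⟩
        have := hb p z
        convert this using 1
        funext x
        rcases x with x | x <;> rfl
    have hπ : ∀ (M : Type) [L.Structure M], π.Realize (fun e : Empty => (e.elim : M)) ↔
        ∀ (b : Fin n → M) (y : M), (∃ p : Idx L a, ∃ z, ¬ p.2.1.Realize (Sum.elim b z)) ∨
          ∃ t : L.Term (Fin n), t.realize b = y := by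
      intro M _
      simp only [π, Inf.Realize]
      constructor
      · intro h b y
        obtain ⟨j, z, hz⟩ := h () (Sum.elim b fun _ => y)
        rcases j with p | t
        · left
          refine ⟨p, z, ?_⟩
          simp only [fm, Inf.Realize, Formula.realize_not, Formula.realize_relabel] at hz
          intro h0
          apply hz
          convert h0 using 1
          funext x
          rcases x with x | x <;> rfl
        · right
          refine ⟨t, ?_⟩
          exact ((Formula.realize_equal.1 hz).trans Term.realize_relabel).symm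
      · intro h _ w
        rcases h (fun i => w (Sum.inl i)) (w (Sum.inr ())) with ⟨p, z, hz⟩ | ⟨t, ht⟩
        · refine ⟨Sum.inl p, z, ?_⟩
          simp only [fm, Inf.Realize, Formula.realize_not, Formula.realize_relabel]
          intro h0
          apply hz
          convert h0 using 1
          funext x
          rcases x with x | x <;> rfl
        · refine ⟨Sum.inr t, Fin.elim0, Formula.realize_equal.2 ?_⟩
          exact ht.symm.trans (Term.realize_relabel (t := t) (g := g3)
            (v := Sum.elim (Sum.elim (fun e : Empty => (e.elim : M)) w) Fin.elim0)).symm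
    have hand : ∀ (M : Type) [L.Structure M],
        (σ.and π).Realize (fun e : Empty => (e.elim : M)) ↔
        σ.Realize (fun e : Empty => (e.elim : M)) ∧ π.Realize (fun e : Empty => (e.elim : M)) := by
      intro M _
      simp only [Inf.and, Inf.Realize]
      exact ⟨fun h => ⟨h true, h false⟩, fun h i => by cases i <;> simp [h.1, h.2]⟩
    intro M _ _
    constructor
    · intro h
      rw [hand, hσ, hπ] at h
      obtain ⟨⟨b, hb⟩, h2⟩ := h
      have hgen : ∀ y : M, ∃ t : L.Term (Fin n), t.realize b = y := by
        intro y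
        rcases h2 b y with ⟨p, z, hz⟩ | ht
        · exact absurd (hb p z) hz
        · exact ht
      refine exists_equiv a b ha hgen ?_
      have one : ∀ ψ : L.Formula (Fin n), ψ.IsQF → ψ.Realize a → ψ.Realize b := by
        intro ψ hψ hr
        have := hb ⟨0, ψ.relabel Sum.inl, isQF_relabel hψ _, fun z => by
          rw [Formula.realize_relabel]
          exact hr⟩ Fin.elim0
        rw [Formula.realize_relabel] at this
        exact this
      intro ψ hψ
      refine ⟨one ψ hψ, fun hb' => ?_⟩
      by_contra hna
      have := one (∼ψ) hψ.not (by rwa [Formula.realize_not])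
      rw [Formula.realize_not] at this
      exact this hb'
    · rintro ⟨e⟩
      have hA : (σ.and π).Realize (fun e : Empty => (e.elim : A)) := by
        rw [hand, hσ, hπ]
        refine ⟨⟨a, fun p z => p.2.2.2 z⟩, fun b y => ?_⟩
        by_cases hc : ∃ p : Idx L a, ∃ z, ¬ p.2.1.Realize (Sum.elim b z)
        · exact Or.inl hc
        · right
          refine H b (fun m ψ hψ hz z => ?_) y
          by_contra hn
          exact hc ⟨⟨m, ψ, hψ, hz⟩, z, hn⟩
      refine (realize_equiv e (σ.and π) (fun e : Empty => (e.elim : M))).1 ?_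
      have h0 : (e ∘ fun e : Empty => (e.elim : M)) = fun e : Empty => (e.elim : A) := by
        funext x
        exact x.elim
      rw [h0]
      exact hA

end General

section Rings

/-- A surjective endomorphism of a Noetherian commutative ring is injective. -/
theorem hopf {A : Type} [CommRing A] [IsNoetherianRing A] (f : A →+* A)
    (hf : Function.Surjective f) : Function.Injective f := by
  let K : ℕ →o Ideal A :=
    ⟨fun k => RingHom.ker (f ^ k), monotone_nat_of_le_succ fun k x hx => by
      rw [RingHom.mem_ker] at hx ⊢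
      rw [pow_succ', RingHom.mul_def, RingHom.comp_apply, hx, map_zero]⟩
  obtain ⟨N, hN⟩ := monotone_stabilizes_iff_noetherian.2 (inferInstance : IsNoetherian A A) K
  have hsurj : Function.Surjective (f ^ N) := by
    have : ∀ k : ℕ, Function.Surjective (f ^ k) := by
      intro k
      induction k with
      | zero => intro x; exact ⟨x, by simp⟩
      | succ k ih =>
        rw [pow_succ', RingHom.mul_def, RingHom.coe_comp]
        exact hf.comp ih
    exact this N
  rw [injective_iff_map_eq_zero]
  intro x hx
  obtain ⟨y, rfl⟩ := hsurj x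
  have h1 : y ∈ K (N + 1) := by
    change y ∈ RingHom.ker (f ^ (N + 1))
    rw [RingHom.mem_ker, pow_succ', RingHom.mul_def, RingHom.comp_apply, hx]
  rw [← hN (N + 1) (Nat.le_succ N)] at h1
  exact (RingHom.mem_ker).1 h1

variable {A : Type} [CommRing A] [FirstOrder.Ring.CompatibleRing A]

/-- A finite system of polynomial equations is a quantifier-free formula. -/
theorem exists_system {α : Type} (s : Finset (FreeCommRing α)) :
    ∃ θ : FirstOrder.Language.ring.Formula α, θ.IsQF ∧
      ∀ v : α → A, θ.Realize v ↔ ∀ q ∈ s, FreeCommRing.lift v q = 0 := by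
  classical
  induction s using Finset.induction_on with
  | empty => exact ⟨⊤, BoundedFormula.IsQF.top, fun v => by simp [Formula.Realize]⟩
  | insert q s hq ih =>
    obtain ⟨θ, hθ, h⟩ := ih
    refine ⟨(Term.equal (Ring.termOfFreeCommRing q) 0) ⊓ θ,
      (BoundedFormula.IsAtomic.equal _ _).isQF.inf hθ, fun v => ?_⟩
    rw [Formula.realize_inf, Formula.realize_equal, h]
    simp

end Rings

/-- **Every finitely generated commutative ring has a d-`Σ₂` Scott sentence.** Here `A` is a
commutative ring, viewed as a structure in the language of rings (`0, 1, +, -, ·`) and finitely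
generated as such.  In particular this holds for every finitely generated integral domain. -/
theorem result (A : Type) [CommRing A] [FirstOrder.Ring.CompatibleRing A]
    (hfg : Structure.FG FirstOrder.Language.ring A) :
    ∃ φ : Inf FirstOrder.Language.ring Empty, IsDSigma 2 φ ∧ IsScott φ A := by
  classical
  obtain ⟨n, a, hgen⟩ := Substructure.fg_iff_exists_fin_generating_family.1
    (Structure.fg_def.1 hfg)
  -- the generating tuple reaches every element by a term
  have ha : ∀ y : A, ∃ t : FirstOrder.Language.ring.Term (Fin n), t.realize a = y := by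
    intro y
    have hy : y ∈ Substructure.closure FirstOrder.Language.ring (Set.range a) := by
      rw [hgen]
      exact Substructure.mem_top y
    obtain ⟨t, ht⟩ := Substructure.mem_closure_iff_exists_term.1 hy
    have hc : ∀ x : Set.range a, ∃ i : Fin n, a i = x := fun x => x.2
    choose g hg using hc
    refine ⟨t.relabel g, ?_⟩
    rw [Term.realize_relabel, ← ht]
    congr 1
    funext x
    exact hg x
  -- every element is the value of a polynomial at the generating tuple
  have hpoly : ∀ y : A, ∃ p : FreeCommRing (Fin n), FreeCommRing.lift a p = y := by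
    intro y
    obtain ⟨t, rfl⟩ := ha y
    clear ha hgen
    induction t with
    | var i => exact ⟨FreeCommRing.of i, by simp⟩
    | func f ts ih =>
      choose q hq using ih
      cases f with
      | add => exact ⟨q 0 + q 1, by simp [Term.realize, hq]⟩
      | mul => exact ⟨q 0 * q 1, by simp [Term.realize, hq]⟩
      | neg => exact ⟨- q 0, by simp [Term.realize, hq]⟩
      | zero => exact ⟨0, by simp [Term.realize]⟩
      | one => exact ⟨1, by simp [Term.realize]⟩
  -- `A` is Noetherian
  have hF : ∀ m : ℕ, IsNoetherianRing (FreeCommRing (Fin m)) := fun m =>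
    isNoetherianRing_of_ringEquiv _ (freeCommRingEquivMvPolynomialInt (Fin m)).symm
  have hF2 : IsNoetherianRing (FreeCommRing (Fin n ⊕ Fin n)) :=
    isNoetherianRing_of_ringEquiv _ (freeCommRingEquivMvPolynomialInt (Fin n ⊕ Fin n)).symm
  have := hF n
  have : IsNoetherianRing A := isNoetherianRing_of_surjective _ _ (FreeCommRing.lift a) hpoly
  refine exists_scott a ha fun b hb => ?_
  -- the relations between `b` and `a`
  let ρ : FreeCommRing (Fin n ⊕ Fin n) →+* A := FreeCommRing.lift (Sum.elim b a)
  have hρ : Function.Surjective ρ := by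
    intro y
    obtain ⟨p, rfl⟩ := hpoly y
    refine ⟨FreeCommRing.lift (fun i => FreeCommRing.of (Sum.inr i)) p, ?_⟩
    have : ρ.comp (FreeCommRing.lift (fun i => FreeCommRing.of (Sum.inr i))) =
        FreeCommRing.lift a := FreeCommRing.hom_ext fun i => by simp [ρ]
    rw [← this]
    rfl
  obtain ⟨s, hs⟩ := (isNoetherianRing_iff_ideal_fg _).1 hF2 (RingHom.ker ρ)
  obtain ⟨θ, hθ, hθs⟩ := exists_system (A := A) s
  obtain ⟨c, hc⟩ : ∃ c : Fin n → A, θ.Realize (Sum.elim a c) := by
    by_contra hno
    push Not at hno
    have := hb n (∼θ) hθ.not (fun z => by rw [Formula.realize_not]; exact hno z) a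
    rw [Formula.realize_not] at this
    apply this
    rw [hθs]
    intro q hq
    have : q ∈ RingHom.ker ρ := by
      rw [← hs]
      exact Ideal.subset_span hq
    exact this
  -- the induced endomorphism taking `b` to `a`
  have hker : RingHom.ker ρ ≤ RingHom.ker (FreeCommRing.lift (Sum.elim a c)) := by
    rw [← hs, Ideal.span_le]
    intro q hq
    exact (hθs _).1 hc q hq
  let f : A →+* A := RingHom.liftOfSurjective ρ hρ ⟨FreeCommRing.lift (Sum.elim a c), hker⟩
  have hf : ∀ p, f (ρ p) = FreeCommRing.lift (Sum.elim a c) p := fun p =>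
    RingHom.liftOfRightInverse_comp_apply _ _ _ _ _
  have hfb : ∀ p : FreeCommRing (Fin n), f (FreeCommRing.lift b p) = FreeCommRing.lift a p := by
    intro p
    have h1 : ρ.comp (FreeCommRing.lift fun i => FreeCommRing.of (Sum.inl i)) =
        FreeCommRing.lift b := FreeCommRing.hom_ext fun i => by simp [ρ]
    have h2 : (FreeCommRing.lift (Sum.elim a c)).comp
        (FreeCommRing.lift fun i => FreeCommRing.of (Sum.inl i)) =
        FreeCommRing.lift a := FreeCommRing.hom_ext fun i => by simp
    rw [← h1, ← h2, RingHom.comp_apply, hf, RingHom.comp_apply]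
  have hfs : Function.Surjective f := by
    intro y
    obtain ⟨p, rfl⟩ := hpoly y
    exact ⟨_, hfb p⟩
  have hfi := hopf f hfs
  intro y
  obtain ⟨p, hp⟩ := hpoly (f y)
  refine ⟨Ring.termOfFreeCommRing p, ?_⟩
  rw [Ring.realize_termOfFreeCommRing]
  apply hfi
  rw [hfb, hp]

end Pool.Agent.Results.MP_93e0ce_lc.DSigmaTwoScott
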